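import Mathlib

set_option autoImplicit false

namespace Pool.Agent.Results.MP_df70bc_co.DegreeDrop

open Finset

/-- `t(x) = x + ∑_{k=0}^{q-2} x^k`. -/
def t {K : Type} [Field K] (q : ℕ) (x : K) : K := x + ∑ k ∈ range (q - 1), x ^ k

/-- The function `f_{n+1}` of `n+1` variables: `f_1 = x_1`, and
`f_{n+2} = t(f_{n+1}^{q-2} + x_{n+2}^{q-2})`. The variables `x_1, …, x_{n+1}` are indexed by
`Fin (n+1)`; `Fin.init x` drops the last one. -/
def f {K : Type} [Field K] (q : ℕ) : (n : ℕ) → (Fin (n + 1) → K) → K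
  | 0, x => x 0
  | n + 1, x => t q (f q n (Fin.init x) ^ (q - 2) + x (Fin.last (n + 1)) ^ (q - 2))

/-- `P` is the reduced form of the function `g : F_p^n → F_p`: it has degree less than `p` in each
variable and represents `g`. -/
def IsReducedForm (p : ℕ) [Fact p.Prime] {n : ℕ} (g : (Fin n → ZMod p) → ZMod p)
    (P : MvPolynomial (Fin n) (ZMod p)) : Prop :=
  (∀ i, P.degreeOf i < p) ∧ ∀ x, MvPolynomial.eval x P = g x

instance : Fact (Nat.Prime 7) := ⟨by norm_num⟩

abbrev K := ZMod 7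

/-! ### Coefficient extraction -/

/-- the dual functionals to the monomials `1, y, …, y^6` on functions on `F_7` -/
def dual (s : ℕ) (y : K) : K := if s = 0 then (if y = 0 then 1 else 0) else -y ^ (6 - s)

lemma dual_apply : ∀ a : Fin 7, ∀ s : Fin 7, ∑ y : K, y ^ a.val * dual s.val y = if a = s then 1 else 0 := by
  decide

lemma coeff_eq {n : ℕ} (P : MvPolynomial (Fin n) K) (hP : ∀ i, P.degreeOf i < 7)
    (s : Fin n →₀ ℕ) (hs : ∀ i, s i < 7) :
    P.coeff s = ∑ x : Fin n → K, MvPolynomial.eval x P * ∏ i, dual (s i) (x i) := by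
  have h1 : ∀ x : Fin n → K, MvPolynomial.eval x P =
      ∑ d ∈ P.support, P.coeff d * ∏ i, x i ^ d i := by
    intro x
    rw [MvPolynomial.eval_eq']
  simp_rw [h1, Finset.sum_mul]
  rw [Finset.sum_comm]
  have h2 : ∀ d ∈ P.support, ∑ x : Fin n → K, (P.coeff d * ∏ i, x i ^ d i) * ∏ i, dual (s i) (x i) =
      if d = s then P.coeff d else 0 := by
    intro d hd
    have hd' : ∀ i, d i < 7 := fun i =>
      lt_of_le_of_lt (MvPolynomial.monomial_le_degreeOf i hd) (hP i)
    have h3 : ∀ x : Fin n → K, (P.coeff d * ∏ i, x i ^ d i) * ∏ i, dual (s i) (x i) =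
        P.coeff d * ∏ i, (x i ^ d i * dual (s i) (x i)) := by
      intro x
      rw [Finset.prod_mul_distrib, mul_assoc]
    simp_rw [h3]
    rw [← Finset.mul_sum]
    have h4 : ∑ x : Fin n → K, ∏ i, (x i ^ d i * dual (s i) (x i)) =
        ∏ i, ∑ y : K, (y ^ d i * dual (s i) y) := by
      rw [Finset.prod_univ_sum]
      rw [Fintype.piFinset_univ]
    rw [h4]
    have h5 : ∀ i, ∑ y : K, (y ^ d i * dual (s i) y) = if d i = s i then 1 else 0 := by
      intro i
      have := dual_apply ⟨d i, hd' i⟩ ⟨s i, hs i⟩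
      simpa using this
    simp_rw [h5]
    split_ifs with h
    · subst h; simp
    · have : ∃ i, d i ≠ s i := by
        by_contra hcon
        push Not at hcon
        exact h (Finsupp.ext hcon)
      obtain ⟨i, hi⟩ := this
      rw [Finset.prod_eq_zero (Finset.mem_univ i) (by rw [if_neg hi]), mul_zero]
  rw [Finset.sum_congr rfl h2, Finset.sum_ite_eq']
  split_ifs with h
  · rfl
  · exact MvPolynomial.notMem_support_iff.1 h

/-! ### Iterated sums -/

/-- the transfer operator -/
def T (w φ : K → K) (u : K) : K := ∑ y : K, w y * φ (t 7 (u ^ 5 + y ^ 5))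

/-- the weighted sum of `φ (f_{n+1})` -/
def S (n : ℕ) (w : Fin (n + 1) → K → K) (φ : K → K) : K :=
  ∑ x : Fin (n + 1) → K, φ (f 7 n x) * ∏ i, w i (x i)

lemma S_zero (w : Fin 1 → K → K) (φ : K → K) : S 0 w φ = ∑ y : K, φ y * w 0 y := by
  unfold S
  rw [← (Equiv.funUnique (Fin 1) K).symm.sum_comp]
  refine Finset.sum_congr rfl fun y _ => ?_
  simp [f]

lemma S_succ (n : ℕ) (w : Fin (n + 2) → K → K) (φ : K → K) :
    S (n + 1) w φ = S n (fun i => w i.castSucc) (T (w (Fin.last (n + 1))) φ) := by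
  unfold S
  rw [← (Fin.snocEquiv (fun _ : Fin (n + 2) => K)).sum_comp, Fintype.sum_prod_type,
    Finset.sum_comm]
  refine Finset.sum_congr rfl fun x _ => ?_
  unfold T
  rw [Finset.sum_mul]
  refine Finset.sum_congr rfl fun y _ => ?_
  have h1 : f 7 (n + 1) ((Fin.snocEquiv (fun _ : Fin (n + 2) => K)) (y, x)) =
      t 7 (f 7 n x ^ 5 + y ^ 5) := by
    simp [f, Fin.snocEquiv]
  rw [h1, Fin.prod_univ_castSucc]
  simp [Fin.snocEquiv]
  ring

lemma bij1 : ∀ c : K, Function.Bijective (fun y : K => t 7 (c + y ^ 5)) := by decide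
lemma bij2 : ∀ c : K, Function.Bijective (fun y : K => t 7 (y ^ 5 + c)) := by decide

lemma sum_T (w φ : K → K) (h : ∑ z : K, φ z = 0) : ∑ u : K, T w φ u = 0 := by
  unfold T
  rw [Finset.sum_comm]
  apply Finset.sum_eq_zero
  intro y _
  rw [← Finset.mul_sum, (bij2 (y ^ 5)).sum_comp φ, h, mul_zero]

lemma S_const (n : ℕ) : ∀ (w : Fin (n + 1) → K → K) (φ : K → K), ∑ z : K, φ z = 0 →
    (∃ i, ∀ y, w i y = -1) → S n w φ = 0 := by
  induction n with
  | zero =>
    intro w φ hφ ⟨i, hi⟩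
    rw [S_zero]
    have : i = 0 := Fin.ext (by omega)
    subst this
    simp_rw [hi]
    rw [← Finset.sum_mul, hφ, zero_mul]
  | succ n ih =>
    intro w φ hφ ⟨i, hi⟩
    rw [S_succ]
    refine Fin.lastCases (motive := fun i => (∀ y, w i y = -1) →
      S n (fun i => w i.castSucc) (T (w (Fin.last (n + 1))) φ) = 0) ?_ ?_ i hi
    · intro hl
      have h1 : T (w (Fin.last (n + 1))) φ = fun _ => 0 := by
        funext u
        unfold T
        simp_rw [hl]
        rw [← Finset.mul_sum, (bij1 (u ^ 5)).sum_comp φ, hφ, mul_zero]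
      rw [h1]
      unfold S
      simp
    · intro j hj
      exact ih _ _ (sum_T _ _ hφ) ⟨j, hj⟩

lemma sum_id : ∑ z : K, z = 0 := by decide

/-- the functions `T^k id`, for the weight `-y` -/
def tab (k : ℕ) (u : K) : K :=
  (match k with
  | 0 => ![0, 1, 2, 3, 4, 5, 6]
  | 1 => ![2, 2, 5, 2, 4, 2, 4]
  | 2 => ![0, 2, 4, 1, 2, 5, 0]
  | 3 => ![2, 2, 2, 4, 2, 6, 3]
  | 4 => ![0, 2, 1, 0, 4, 0, 0]
  | 5 => ![2, 2, 1, 1, 6, 0, 2]
  | 6 => ![0, 3, 4, 2, 2, 3, 0]
  | 7 => ![3, 3, 0, 4, 1, 5, 5]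
  | 8 => ![0, 6, 0, 6, 0, 2, 0]
  | _ => ![6, 6, 2, 0, 1, 1, 5] : Fin 7 → K) u

lemma tab_zero : (fun z : K => z) = tab 0 := by funext z; revert z; decide

lemma tab_succ : ∀ k : Fin 9, ∀ u : K, T (fun y => -y) (tab k.val) u = tab (k.val + 1) u := by
  decide

lemma S_tab (n k : ℕ) (hk : n + k ≤ 9) :
    S n (fun _ y => -y) (tab k) = S 0 (fun _ y => -y) (tab (k + n)) := by
  induction n generalizing k with
  | zero => rfl
  | succ n ih =>
    rw [S_succ]
    have h1 : T (fun y => -y) (tab k) = tab (k + 1) := by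
      funext u
      exact tab_succ ⟨k, by omega⟩ u
    rw [h1, ih (k + 1) (by omega)]
    congr 2
    omega

lemma S_nine : S 9 (fun _ y => -y) (fun z => z) = 0 := by
  rw [tab_zero, S_tab 9 0 (by norm_num), S_zero]
  decide

/-! ### Conclusion -/

/-- Conjecture Q1 fails for `q = p = 7` and `n = 10`: the reduced form of `f_10` has total degree
less than `10 (q - 2) = 50`. -/
theorem result :
    ∃ (p : ℕ) (_ : Fact p.Prime) (n : ℕ), p ≠ 2 ∧ 3 < p ∧ 2 ≤ n + 1 ∧
      (∃ P, IsReducedForm p (f p n) P) ∧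
      ∀ P, IsReducedForm p (f p n) P → P.totalDegree < (n + 1) * (p - 2) := by
  refine ⟨7, inferInstance, 9, by norm_num, by norm_num, by norm_num, ?_, ?_⟩
  · have h1 : (f 7 9 : (Fin 10 → ZMod 7) → ZMod 7) ∈
        (MvPolynomial.restrictDegree (Fin 10) (ZMod 7) (Fintype.card (ZMod 7) - 1)).map
          (MvPolynomial.evalₗ (ZMod 7) (Fin 10)) := by
      rw [MvPolynomial.map_restrict_dom_evalₗ]
      exact Submodule.mem_top
    obtain ⟨P, hP, hP2⟩ := Submodule.mem_map.1 h1
    refine ⟨P, ?_, ?_⟩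
    · intro i
      rw [MvPolynomial.degreeOf_lt_iff (by norm_num)]
      intro m hm
      have := (MvPolynomial.mem_restrictDegree _ _ _).1 hP m hm i
      rw [ZMod.card] at this
      omega
    · intro x
      exact congrFun hP2 x
  · intro P hP
    obtain ⟨hP1, hP2⟩ := hP
    unfold MvPolynomial.totalDegree
    rw [Finset.sup_lt_iff (by norm_num)]
    intro s hs
    have hs7 : ∀ i, s i < 7 := fun i =>
      lt_of_le_of_lt (MvPolynomial.monomial_le_degreeOf i hs) (hP1 i)
    have hcoef : P.coeff s = S 9 (fun i => dual (s i)) (fun z => z) := by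
      rw [coeff_eq P hP1 s hs7]
      unfold S
      refine Finset.sum_congr rfl fun x _ => ?_
      rw [hP2 x]
    have hne : P.coeff s ≠ 0 := MvPolynomial.mem_support_iff.1 hs
    have hs5 : ∀ i, s i ≤ 5 := by
      intro i
      by_contra hcon
      have h6 : s i = 6 := by have := hs7 i; omega
      apply hne
      rw [hcoef]
      apply S_const 9 _ _ sum_id
      refine ⟨i, fun y => ?_⟩
      unfold dual
      rw [h6]
      simp
    have hsum : (s.sum fun _ e => e) = ∑ i, s i := Finsupp.sum_fintype _ _ (fun _ => rfl)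
    rw [hsum]
    by_contra hcon
    rw [not_lt] at hcon
    have hall : ∀ i, s i = 5 := by
      intro i
      by_contra hi
      have h1 : ∑ j, s j < ∑ _j : Fin 10, 5 :=
        Finset.sum_lt_sum (fun j _ => hs5 j) ⟨i, Finset.mem_univ i, by have := hs5 i; omega⟩
      simp at h1
      simp at hcon
      omega
    apply hne
    rw [hcoef]
    have h2 : (fun i : Fin 10 => dual (s i)) = fun _ y => -y := by
      funext i y
      rw [hall i]
      unfold dual
      simp
    rw [h2]
    exact S_nine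

end Pool.Agent.Results.MP_df70bc_co.DegreeDrop
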